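import Pool.Agent.Y62.GA.Stm

/-!
# GA-FUS: climbing to a Sylow subgroup normalised by an inverting element
-/

set_option autoImplicit false

noncomputable section

namespace Pool.Agent.Y655.GA

open Subgroup

instance : Fact (Nat.Prime 3) := ⟨Nat.prime_three⟩

/-- the commutator subgroup does not generate -/
lemma nongen {P : Type} [Group P] [Finite P] (hP : IsPGroup 3 P) (H : Subgroup P)
    (h : H ⊔ _root_.commutator P = ⊤) : H = ⊤ := by
  by_contra hH
  obtain ⟨M, hM, hHM⟩ := (eq_top_or_exists_le_coatom H).resolve_left hH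
  have hnil : Group.IsNilpotent P := hP.isNilpotent
  have hMn : M.Normal := NormalizerCondition.normal_of_coatom M
    Group.normalizerCondition_of_isNilpotent hM
  have hcomm : _root_.commutator P ≤ M := by
    rw [← Subgroup.Normal.quotient_commutative_iff_commutator_le]
    have hQ : IsPGroup 3 (P ⧸ M) := hP.to_quotient M
    have hnt : Nontrivial (P ⧸ M) := QuotientGroup.nontrivial_iff.2 hM.1
    have hc := hQ.center_nontrivial
    have hMZ : M ≤ (Subgroup.center (P ⧸ M)).comap (QuotientGroup.mk' M) := by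
      intro x hx
      rw [mem_comap]
      have : QuotientGroup.mk' M x = 1 := (QuotientGroup.eq_one_iff x).2 hx
      rw [this]
      exact one_mem _
    have hne : M ≠ (Subgroup.center (P ⧸ M)).comap (QuotientGroup.mk' M) := by
      intro he
      obtain ⟨⟨c, hc⟩, hc1⟩ := exists_ne (1 : Subgroup.center (P ⧸ M))
      obtain ⟨x, rfl⟩ := QuotientGroup.mk'_surjective M c
      have hx : x ∈ M := by
        rw [he, mem_comap]
        exact hc
      apply hc1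
      apply Subtype.ext
      exact (QuotientGroup.eq_one_iff x).2 hx
    have hZ := hM.2 _ (lt_of_le_of_ne hMZ hne)
    refine ⟨⟨fun a b => ?_⟩⟩
    obtain ⟨x, rfl⟩ := QuotientGroup.mk'_surjective M a
    have hx : x ∈ (Subgroup.center (P ⧸ M)).comap (QuotientGroup.mk' M) := by
      rw [hZ]
      exact mem_top x
    rw [mem_comap, mem_center_iff] at hx
    exact (hx b).symm
  exact hM.1 (top_le_iff.1 (h ▸ sup_le hHM hcomm))

variable {G : Type} [Group G] [Finite G]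

lemma nongen' (Q H : Subgroup G) (hQ : IsPGroup 3 Q) (hHQ : H ≤ Q)
    (h : ∀ x ∈ Q, ∃ w ∈ H, x⁻¹ * w ∈ ⁅Q, Q⁆) : H = Q := by
  have h1 : H.subgroupOf Q = ⊤ := by
    apply nongen hQ
    rw [eq_top_iff]
    rintro ⟨x, hx⟩ -
    obtain ⟨w, hw, hd⟩ := h x hx
    rw [← Subgroup.map_subtype_commutator] at hd
    obtain ⟨d, hd, hde⟩ := hd
    have hde' : (d : G) = x⁻¹ * w := hde
    have e : (⟨x, hx⟩ : Q) = ⟨w, hHQ hw⟩ * d⁻¹ := by
      apply Subtype.ext
      show x = w * ((d : G))⁻¹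
      rw [hde']
      group
    rw [e]
    exact mul_mem (mem_sup_left (mem_subgroupOf.2 hw)) (mem_sup_right (inv_mem hd))
  exact le_antisymm hHQ (subgroupOf_eq_top.1 h1)

/-- a fixed point in a coset -/
lemma fixed (R : Subgroup G) (hR : IsPGroup 3 R) (g : G) (l : ℕ) (hl : l.Prime) (hl3 : l ≠ 3)
    (x : G) (hst : ∀ w, x⁻¹ * w ∈ R → x⁻¹ * (g * w * g⁻¹) ∈ R)
    (hpow : ∀ w, x⁻¹ * w ∈ R → g ^ l * w * (g ^ l)⁻¹ = w) :
    ∃ w, x⁻¹ * w ∈ R ∧ g * w * g⁻¹ = w := by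
  classical
  by_contra hcon
  push Not at hcon
  have : Fact l.Prime := ⟨hl⟩
  have : Fintype {w : G // x⁻¹ * w ∈ R} := Fintype.ofFinite _
  let f : Function.End {w : G // x⁻¹ * w ∈ R} := fun w => ⟨g * w.1 * g⁻¹, hst w.1 w.2⟩
  have hf : ∀ (n : ℕ) (w : {w : G // x⁻¹ * w ∈ R}), ((f ^ n) w).1 = g ^ n * w.1 * (g ^ n)⁻¹ := by
    intro n
    induction n with
    | zero =>
      intro w
      rw [pow_zero]
      show w.1 = g ^ 0 * w.1 * (g ^ 0)⁻¹
      simp
    | succ n ih =>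
      intro w
      have h1 : (f ^ (n + 1)) w = (f ^ n) (f w) := by
        rw [pow_succ]
        rfl
      rw [h1, ih]
      show g ^ n * (g * w.1 * g⁻¹) * (g ^ n)⁻¹ = _
      rw [pow_succ]
      group
  have hf1 : f ^ l ^ 1 = 1 := by
    funext w
    apply Subtype.ext
    rw [pow_one, hf]
    exact hpow w.1 w.2
  have h1 := Equiv.Perm.card_fixedPoints_modEq hf1
  have h2 : Fintype.card (Function.fixedPoints f) = 0 := by
    rw [Fintype.card_eq_zero_iff]
    constructor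
    rintro ⟨w, hw⟩
    exact hcon w.1 w.2 (congrArg Subtype.val hw)
  rw [h2] at h1
  have h3 : Fintype.card {w : G // x⁻¹ * w ∈ R} = Nat.card R := by
    rw [← Nat.card_eq_fintype_card]
    apply Nat.card_congr
    exact ⟨fun w => ⟨x⁻¹ * w.1, w.2⟩, fun r => ⟨x * r.1, by simp⟩, fun w => by simp,
      fun r => by simp⟩
  rw [h3] at h1
  have h4 : l ∣ Nat.card R := (Nat.modEq_zero_iff_dvd).1 h1
  obtain ⟨k, hk⟩ := IsPGroup.iff_card.1 hR
  rw [hk] at h4
  exact hl3 ((Nat.prime_dvd_prime_iff_eq hl Nat.prime_three).1 (hl.dvd_of_dvd_pow h4))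

/-- two elements outside a subgroup of index three -/
lemma two_cosets (D F : Subgroup G) (hDF : D ≤ F) (hn : ∀ a ∈ F, ∀ d ∈ D, a * d * a⁻¹ ∈ D)
    (hc : Nat.card F = 3 * Nat.card D) (a b : G) (ha : a ∈ F) (hb : b ∈ F) (haD : a ∉ D)
    (hbD : b ∉ D) : a⁻¹ * b ∈ D ∨ a * b ∈ D := by
  have hN : (D.subgroupOf F).Normal := by
    constructor
    intro d hd c
    rw [mem_subgroupOf] at hd ⊢
    exact hn c c.2 d hd
  have hcard : Nat.card (F ⧸ D.subgroupOf F) = 3 := by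
    have h1 := Subgroup.card_eq_card_quotient_mul_card_subgroup (D.subgroupOf F)
    have h2 : Nat.card (D.subgroupOf F) = Nat.card D :=
      Nat.card_congr (subgroupOfEquivOfLe hDF).toEquiv
    rw [h2, hc] at h1
    exact (Nat.eq_of_mul_eq_mul_right Nat.card_pos h1).symm
  have hane : (QuotientGroup.mk (⟨a, ha⟩ : F) : F ⧸ D.subgroupOf F) ≠ 1 := by
    intro h
    rw [QuotientGroup.eq_one_iff, mem_subgroupOf] at h
    exact haD h
  have hbne : (QuotientGroup.mk (⟨b, hb⟩ : F) : F ⧸ D.subgroupOf F) ≠ 1 := by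
    intro h
    rw [QuotientGroup.eq_one_iff, mem_subgroupOf] at h
    exact hbD h
  have h3 : (QuotientGroup.mk (⟨a, ha⟩ : F) : F ⧸ D.subgroupOf F) ^ 3 = 1 := by
    rw [← hcard]
    exact pow_card_eq_one'
  obtain ⟨k, hk⟩ := mem_powers_of_prime_card (g' := (QuotientGroup.mk (⟨b, hb⟩ : F) :
    F ⧸ D.subgroupOf F)) hcard hane
  have hk2 : (QuotientGroup.mk (⟨a, ha⟩ : F) : F ⧸ D.subgroupOf F) ^ k =
      QuotientGroup.mk (⟨b, hb⟩ : F) := hk
  have hk' : (QuotientGroup.mk (⟨a, ha⟩ : F) : F ⧸ D.subgroupOf F) ^ (k % 3) =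
      QuotientGroup.mk (⟨b, hb⟩ : F) := by
    rw [← hk2]
    conv_rhs => rw [← Nat.div_add_mod k 3, pow_add, pow_mul, h3, one_pow, one_mul]
  have h4 : k % 3 = 0 ∨ k % 3 = 1 ∨ k % 3 = 2 := by omega
  rcases h4 with h4 | h4 | h4
  · rw [h4, pow_zero] at hk'
    exact absurd hk'.symm hbne
  · left
    rw [h4, pow_one, QuotientGroup.eq, mem_subgroupOf] at hk'
    exact hk'
  · right
    have h5 : (QuotientGroup.mk (⟨a, ha⟩ * ⟨b, hb⟩ : F) : F ⧸ D.subgroupOf F) = 1 := by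
      rw [QuotientGroup.mk_mul, ← hk', h4, ← pow_succ', h3]
    rw [QuotientGroup.eq_one_iff, mem_subgroupOf] at h5
    exact h5

lemma conj_D {Q : Subgroup G} {g d : G} (hg : g ∈ normalizer (Q : Set G)) (hd : d ∈ ⁅Q, Q⁆) :
    g * d * g⁻¹ ∈ ⁅Q, Q⁆ := by
  have h1 : (⁅Q, Q⁆).map (MulAut.conj g).toMonoidHom = ⁅Q, Q⁆ := by
    have h2 : Q.map (MulAut.conj g).toMonoidHom = Q := mem_normalizer_iff_map_conj_eq.1 hg
    rw [map_commutator, h2]
  have h3 : (MulAut.conj g).toMonoidHom d ∈ (⁅Q, Q⁆).map (MulAut.conj g).toMonoidHom :=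
    mem_map_of_mem _ hd
  rw [h1] at h3
  exact h3

lemma comm_mem {Q : Subgroup G} {a b : G} (ha : a ∈ Q) (hb : b ∈ Q) :
    a⁻¹ * (b * a * b⁻¹) ∈ ⁅Q, Q⁆ := by
  have h1 := commutator_mem_commutator (inv_mem ha) hb
  rw [commutatorElement_def, inv_inv] at h1
  have e : a⁻¹ * (b * a * b⁻¹) = a⁻¹ * b * a * b⁻¹ := by group
  rw [e]
  exact h1

/-- the normaliser acts trivially modulo `N` if the quotient by `N` is commutative -/
lemma comm_N {N : Subgroup G} (hN : _root_.commutator G ≤ N) (a b : G) :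
    a⁻¹ * (b * a * b⁻¹) ∈ N := by
  apply hN
  have h1 := comm_mem (Q := (⊤ : Subgroup G)) (mem_top a) (mem_top b)
  exact h1

/-- the elements of the normaliser of `Q` acting trivially on `(Q ∩ N) / Q'` -/
def KK (Q N : Subgroup G) [N.Normal] : Subgroup G where
  carrier := {g | g ∈ normalizer (Q : Set G) ∧ ∀ m ∈ Q ⊓ N, m⁻¹ * (g * m * g⁻¹) ∈ ⁅Q, Q⁆}
  one_mem' := ⟨one_mem _, fun m _ => by simp⟩
  mul_mem' := by
    rintro g h ⟨hg1, hg2⟩ ⟨hh1, hh2⟩
    refine ⟨mul_mem hg1 hh1, fun m hm => ?_⟩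
    have e : m⁻¹ * (g * h * m * (g * h)⁻¹) =
        (m⁻¹ * (g * m * g⁻¹)) * (g * (m⁻¹ * (h * m * h⁻¹)) * g⁻¹) := by group
    rw [e]
    exact mul_mem (hg2 m hm) (conj_D hg1 (hh2 m hm))
  inv_mem' := by
    rintro g ⟨hg1, hg2⟩
    refine ⟨inv_mem hg1, fun m hm => ?_⟩
    have e : m⁻¹ * (g⁻¹ * m * g⁻¹⁻¹) = g⁻¹ * (m⁻¹ * (g * m * g⁻¹))⁻¹ * g⁻¹⁻¹ := by group
    rw [e]
    exact conj_D (inv_mem hg1) (inv_mem (hg2 m hm))

lemma mem_KK {Q N : Subgroup G} [N.Normal] {g : G} : g ∈ KK Q N ↔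
    g ∈ normalizer (Q : Set G) ∧ ∀ m ∈ Q ⊓ N, m⁻¹ * (g * m * g⁻¹) ∈ ⁅Q, Q⁆ := Iff.rfl

lemma conj_Q {Q : Subgroup G} {g x : G} (hg : g ∈ normalizer (Q : Set G)) (hx : x ∈ Q) :
    g * x * g⁻¹ ∈ Q := (mem_normalizer_iff.1 hg x).1 hx

lemma Q_le_KK (Q N : Subgroup G) [N.Normal] : Q ≤ KK Q N := by
  intro x hx
  exact ⟨le_normalizer hx, fun m hm => comm_mem hm.1 hx⟩

lemma conj_KK {Q N : Subgroup G} [hN : N.Normal] {n g : G} (hn : n ∈ normalizer (Q : Set G))
    (hg : g ∈ KK Q N) : n * g * n⁻¹ ∈ KK Q N := by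
  refine ⟨mul_mem (mul_mem hn hg.1) (inv_mem hn), fun m hm => ?_⟩
  have h1 : n⁻¹ * m * n ∈ Q ⊓ N := by
    constructor
    · have := conj_Q (inv_mem hn) hm.1
      rwa [inv_inv] at this
    · have := hN.conj_mem m hm.2 n⁻¹
      rwa [inv_inv] at this
  have h2 := conj_D hn (hg.2 _ h1)
  have e : m⁻¹ * (n * g * n⁻¹ * m * (n * g * n⁻¹)⁻¹) =
      n * ((n⁻¹ * m * n)⁻¹ * (g * (n⁻¹ * m * n) * g⁻¹)) * n⁻¹ := by group
  rw [e]
  exact h2

/-- a square of an element of the normaliser is in `KK` -/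
lemma sq_mem {Q N : Subgroup G} [hN : N.Normal] (hDN : ⁅Q, Q⁆ ≤ N)
    (hc : Nat.card (Q ⊓ N : Subgroup G) = 3 * Nat.card (⁅Q, Q⁆ : Subgroup G)) {t : G}
    (ht : t ∈ normalizer (Q : Set G)) : t ^ 2 ∈ KK Q N := by
  refine ⟨pow_mem ht 2, fun m hm => ?_⟩
  have hDF : ⁅Q, Q⁆ ≤ Q ⊓ N := le_inf (commutator_le_self Q) hDN
  have hn : ∀ a ∈ Q ⊓ N, ∀ d ∈ ⁅Q, Q⁆, a * d * a⁻¹ ∈ ⁅Q, Q⁆ := fun a ha d hd =>
    conj_D (le_normalizer ha.1) hd
  have e0 : m⁻¹ * (t ^ 2 * m * (t ^ 2)⁻¹) =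
      m⁻¹ * (t * (t * m * t⁻¹) * t⁻¹) := by
    rw [pow_two]; group
  rw [e0]
  by_cases hmD : m ∈ ⁅Q, Q⁆
  · exact mul_mem (inv_mem hmD) (conj_D ht (conj_D ht hmD))
  · have hu : t * m * t⁻¹ ∈ Q ⊓ N := ⟨conj_Q ht hm.1, hN.conj_mem m hm.2 t⟩
    have huD : t * m * t⁻¹ ∉ ⁅Q, Q⁆ := by
      intro h
      apply hmD
      have h2 := conj_D (inv_mem ht) h
      have e : t⁻¹ * (t * m * t⁻¹) * t⁻¹⁻¹ = m := by group
      rwa [e] at h2
    rcases two_cosets _ _ hDF hn hc m _ hm hu hmD huD with h | h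
    · have e : m⁻¹ * (t * (t * m * t⁻¹) * t⁻¹) =
          (m⁻¹ * (t * m * t⁻¹)) * (t * (m⁻¹ * (t * m * t⁻¹)) * t⁻¹) := by group
      rw [e]
      exact mul_mem h (conj_D ht h)
    · have h1 : t * (m * (t * m * t⁻¹)) * t⁻¹ ∈ ⁅Q, Q⁆ := conj_D ht h
      have h2 : m⁻¹ * (m * (t * m * t⁻¹)) * m⁻¹⁻¹ ∈ ⁅Q, Q⁆ :=
        conj_D (inv_mem (le_normalizer hm.1)) h
      have e : m⁻¹ * (t * (t * m * t⁻¹) * t⁻¹) =
          (m⁻¹ * (m * (t * m * t⁻¹)) * m⁻¹⁻¹)⁻¹ * (t * (m * (t * m * t⁻¹)) * t⁻¹) := by group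
      rw [e]
      exact mul_mem (inv_mem h2) h1

lemma odd_mem {Q N : Subgroup G} [N.Normal] (hDN : ⁅Q, Q⁆ ≤ N)
    (hc : Nat.card (Q ⊓ N : Subgroup G) = 3 * Nat.card (⁅Q, Q⁆ : Subgroup G)) {t : G}
    (ht : t ∈ normalizer (Q : Set G)) (ho : Odd (orderOf t)) : t ∈ KK Q N := by
  obtain ⟨r, hr⟩ := ho
  have h1 : (t ^ 2) ^ (r + 1) = t := by
    rw [← pow_mul]
    have h2 : 2 * (r + 1) = orderOf t + 1 := by omega
    rw [h2, pow_succ, pow_orderOf_eq_one, one_mul]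
  rw [← h1]
  exact pow_mem (sq_mem hDN hc ht) _

/-- the elements of `KK` of order prime to three modulo the centraliser -/
lemma KK_cent {Q N : Subgroup G} [hN : N.Normal] (hQ : IsPGroup 3 Q)
    (hGN : _root_.commutator G ≤ N) {g : G} (hg : g ∈ KK Q N) (l : ℕ) (hl : l.Prime)
    (hl3 : l ≠ 3) (hgl : g ^ l ∈ centralizer (Q : Set G)) : g ∈ centralizer (Q : Set G) := by
  have hDF : ⁅Q, Q⁆ ≤ Q ⊓ N := le_inf (commutator_le_self Q)
    ((commutator_mono le_top le_top).trans hGN)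
  have hpw : ∀ w ∈ Q, g ^ l * w * (g ^ l)⁻¹ = w := by
    intro w hw
    have h1 := mem_centralizer_iff.1 hgl w hw
    rw [← h1]
    group
  have h1 : Q ⊓ centralizer {g} = Q := by
    apply nongen' Q _ hQ inf_le_left
    intro x hx
    obtain ⟨w1, hw1, hf1⟩ := fixed (Q ⊓ N) (hQ.to_le inf_le_left) g l hl hl3 x (by
      intro w hw
      have hwQ : w ∈ Q := by
        have := mul_mem hx hw.1
        rwa [mul_inv_cancel_left] at this
      refine mem_inf.2 ⟨?_, ?_⟩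
      · exact mul_mem (inv_mem hx) (conj_Q hg.1 hwQ)
      · have e : x⁻¹ * (g * w * g⁻¹) = (x⁻¹ * w) * (w⁻¹ * (g * w * g⁻¹)) := by group
        rw [e]
        exact mul_mem hw.2 (comm_N hGN w g)) (by
      intro w hw
      apply hpw
      have := mul_mem hx hw.1
      rwa [mul_inv_cancel_left] at this)
    have hm : w1⁻¹ * x ∈ Q ⊓ N := by
      have := inv_mem hw1
      rwa [mul_inv_rev, inv_inv] at this
    have hmem : ∀ w, (w1⁻¹ * x)⁻¹ * w ∈ ⁅Q, Q⁆ → w ∈ Q ⊓ N := by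
      intro w hw
      have := mul_mem hm (hDF hw)
      rwa [mul_inv_cancel_left] at this
    obtain ⟨w2, hw2, hf2⟩ := fixed (⁅Q, Q⁆) (hQ.to_le (commutator_le_self Q)) g l hl hl3
      (w1⁻¹ * x) (by
      intro w hw
      have e : (w1⁻¹ * x)⁻¹ * (g * w * g⁻¹) =
        ((w1⁻¹ * x)⁻¹ * w) * (w⁻¹ * (g * w * g⁻¹)) := by group
      rw [e]
      exact mul_mem hw (hg.2 w (hmem w hw))) (by
      intro w hw
      exact hpw w (hmem w hw).1)
    have hw1Q : w1 ∈ Q := by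
      have := mul_mem hx hw1.1
      rwa [mul_inv_cancel_left] at this
    refine ⟨w1 * w2, mem_inf.2 ⟨mul_mem hw1Q (hmem w2 hw2).1, ?_⟩, ?_⟩
    · rw [mem_centralizer_singleton_iff]
      have e : g * (w1 * w2) = (g * w1 * g⁻¹) * (g * w2 * g⁻¹) * g := by group
      rw [e, hf1, hf2]
    · have e : x⁻¹ * (w1 * w2) = (w1⁻¹ * x)⁻¹ * w2 := by group
      rw [e]
      exact hw2
  rw [mem_centralizer_iff]
  intro x hx
  have h2 : x ∈ Q ⊓ centralizer {g} := by
    rw [h1]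
    exact hx
  exact mem_centralizer_singleton_iff.1 h2.2

/-- a Sylow subgroup covers the quotient by the centraliser -/
lemma KK_cover {Q N : Subgroup G} [hN : N.Normal] (hQ : IsPGroup 3 Q)
    (hGN : _root_.commutator G ≤ N) (P : Sylow 3 (KK Q N)) (k : KK Q N) :
    ∃ s : KK Q N, s ∈ P ∧ ((s⁻¹ * k : KK Q N) : G) ∈ centralizer (Q : Set G) := by
  have hCn : ((centralizer (Q : Set G)).subgroupOf (KK Q N)).Normal := by
    constructor
    intro c hc g
    rw [mem_subgroupOf] at hc ⊢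
    rw [mem_centralizer_iff] at hc ⊢
    intro x hx
    have hg : (g : G) ∈ normalizer (Q : Set G) := g.2.1
    have h1 : (g : G)⁻¹ * x * g ∈ Q := by
      have := conj_Q (inv_mem hg) hx
      rwa [inv_inv] at this
    have h2 := hc _ h1
    show x * ((g : G) * c * (g : G)⁻¹) = (g : G) * c * (g : G)⁻¹ * x
    calc x * ((g : G) * c * (g : G)⁻¹) = g * ((g : G)⁻¹ * x * g * c) * (g : G)⁻¹ := by group
      _ = g * (c * ((g : G)⁻¹ * x * g)) * (g : G)⁻¹ := by rw [h2]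
      _ = _ := by group
  have hp : IsPGroup 3 (KK Q N ⧸ (centralizer (Q : Set G)).subgroupOf (KK Q N)) := by
    apply IsPGroup.of_card (n := (Nat.primeFactorsList (Nat.card (KK Q N ⧸
      (centralizer (Q : Set G)).subgroupOf (KK Q N)))).length)
    apply Nat.eq_prime_pow_of_unique_prime_dvd Nat.card_pos.ne'
    intro l hl hld
    by_contra hl3
    have : Fact l.Prime := ⟨hl⟩
    obtain ⟨x, hx⟩ := exists_prime_orderOf_dvd_card' l hld
    obtain ⟨g, rfl⟩ := QuotientGroup.mk'_surjective _ x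
    have h1 : (QuotientGroup.mk' ((centralizer (Q : Set G)).subgroupOf (KK Q N)) g) ^ l = 1 := by
      rw [← hx]
      exact pow_orderOf_eq_one _
    rw [← map_pow, QuotientGroup.mk'_apply, QuotientGroup.eq_one_iff, mem_subgroupOf] at h1
    have h2 := KK_cent hQ hGN g.2 l hl hl3 h1
    have h3 : QuotientGroup.mk' ((centralizer (Q : Set G)).subgroupOf (KK Q N)) g = 1 := by
      rw [QuotientGroup.mk'_apply, QuotientGroup.eq_one_iff, mem_subgroupOf]
      exact h2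
    rw [h3, orderOf_one] at hx
    exact hl.one_lt.ne hx
  have htop : IsPGroup 3 (⊤ : Subgroup (KK Q N ⧸
      (centralizer (Q : Set G)).subgroupOf (KK Q N))) := hp.to_subgroup ⊤
  have h1 := (P.mapSurjective (QuotientGroup.mk'_surjective
    ((centralizer (Q : Set G)).subgroupOf (KK Q N)))).is_maximal' htop le_top
  have h2 : QuotientGroup.mk' ((centralizer (Q : Set G)).subgroupOf (KK Q N)) k ∈
      (P : Subgroup (KK Q N)).map (QuotientGroup.mk' ((centralizer (Q : Set G)).subgroupOf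
        (KK Q N))) := by
    have h3 : QuotientGroup.mk' ((centralizer (Q : Set G)).subgroupOf (KK Q N)) k ∈
      (⊤ : Subgroup (KK Q N ⧸ (centralizer (Q : Set G)).subgroupOf (KK Q N))) := mem_top _
    rw [h1] at h3
    exact h3
  obtain ⟨s, hs, hsk⟩ := h2
  refine ⟨s, hs, ?_⟩
  have h3 := QuotientGroup.eq.1 hsk
  rw [mem_subgroupOf] at h3
  exact h3

/-- the pairs -/
def Valid (y z : G) (Q : Subgroup G) : Prop := IsPGroup 3 Q ∧ y ∈ Q ∧ z ∈ Q ∧
  ∃ n ∈ normalizer (Q : Set G), Commute n y ∧ n⁻¹ * z * n = z⁻¹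

section main

variable {N : Subgroup G} [hN : N.Normal] {y z : G}

lemma abel (hNy : N ⊔ zpowers y = ⊤) : _root_.commutator G ≤ N :=
  Subgroup.Normal.commutator_le_of_self_sup_commutative_eq_top hNy inferInstance

lemma decomp (hNy : N ⊔ zpowers y = ⊤) {Q : Subgroup G} (hy : y ∈ Q) {x : G} (hx : x ∈ Q) :
    ∃ w ∈ zpowers y, x⁻¹ * w ∈ Q ⊓ N := by
  have h1 : x ∈ N ⊔ zpowers y := by rw [hNy]; exact mem_top x
  rw [mem_sup_of_normal_left] at h1
  obtain ⟨n, hn, w, hw, rfl⟩ := h1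
  refine ⟨w, hw, mem_inf.2 ⟨mul_mem (inv_mem hx) ((zpowers_le.2 hy) hw), ?_⟩⟩
  have h2 := hN.conj_mem n⁻¹ (inv_mem hn) w⁻¹
  have e : (n * w)⁻¹ * w = w⁻¹ * n⁻¹ * w⁻¹⁻¹ := by group
  rw [e]
  exact h2

/-- the index of the commutator subgroup -/
lemma card_F (hNy : N ⊔ zpowers y = ⊤)
    (h9 : ¬ 9 ∣ Nat.card (centralizer ({y} : Set G) ⊓ N : Subgroup G)) (hz : orderOf z = 3)
    (hzN : z ∈ N) {Q : Subgroup G} (hQ : IsPGroup 3 Q) (hy : y ∈ Q) (hzQ : z ∈ Q) :
    Nat.card (Q ⊓ N : Subgroup G) = 3 * Nat.card (⁅Q, Q⁆ : Subgroup G) := by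
  have hDF : ⁅Q, Q⁆ ≤ Q ⊓ N := le_inf (commutator_le_self Q)
    ((commutator_mono le_top le_top).trans (abel hNy))
  obtain ⟨a, ha⟩ := IsPGroup.iff_card.1 (hQ.to_le (inf_le_left (b := N)))
  obtain ⟨b, hb⟩ := IsPGroup.iff_card.1 (hQ.to_le (commutator_le_self Q))
  have hC : Nat.card ((centralizer ({y} : Set G)).subgroupOf (Q ⊓ N)) ≤ 3 := by
    have h1 : IsPGroup 3 ((centralizer ({y} : Set G)).subgroupOf (Q ⊓ N)) :=
      (hQ.to_le (inf_le_left (b := N))).to_subgroup _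
    obtain ⟨c, hc⟩ := IsPGroup.iff_card.1 h1
    have h2 : Nat.card ((centralizer ({y} : Set G)).subgroupOf (Q ⊓ N)) ∣
        Nat.card (centralizer ({y} : Set G) ⊓ N : Subgroup G) := by
      have h3 : Nat.card ((centralizer ({y} : Set G)).subgroupOf (Q ⊓ N)) =
          Nat.card (((centralizer ({y} : Set G)).subgroupOf (Q ⊓ N)).map (Q ⊓ N).subtype) :=
        Nat.card_congr (equivMapOfInjective _ _ Subtype.coe_injective).toEquiv
      rw [h3]
      apply Subgroup.card_dvd_of_le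
      rw [subgroupOf_map_subtype]
      exact inf_le_inf le_rfl inf_le_right
    rw [hc] at h2 ⊢
    have h4 : c ≤ 1 := by
      by_contra h5
      exact h9 ((pow_dvd_pow 3 (show 2 ≤ c by omega)).trans h2)
    calc 3 ^ c ≤ 3 ^ 1 := Nat.pow_le_pow_right (by norm_num) h4
      _ = 3 := by norm_num
  have hq : Nat.card ((Q ⊓ N : Subgroup G) ⧸ (centralizer ({y} : Set G)).subgroupOf (Q ⊓ N)) ≤
      Nat.card (⁅Q, Q⁆ : Subgroup G) := by
    let f : (Q ⊓ N : Subgroup G) → (⁅Q, Q⁆ : Subgroup G) := fun m =>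
      ⟨(m : G) * y * (m : G)⁻¹ * y⁻¹, by
        have := commutator_mem_commutator m.2.1 hy
        rwa [commutatorElement_def] at this⟩
    have hf : ∀ a b : (Q ⊓ N : Subgroup G), f a = f b ↔
        a⁻¹ * b ∈ (centralizer ({y} : Set G)).subgroupOf (Q ⊓ N) := by
      intro a b
      rw [mem_subgroupOf, mem_centralizer_singleton_iff]
      have e0 : ((a⁻¹ * b : (Q ⊓ N : Subgroup G)) : G) = (a : G)⁻¹ * b := rfl
      rw [e0]
      constructor
      · intro h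
        have h1 : (a : G) * y * (a : G)⁻¹ * y⁻¹ = (b : G) * y * (b : G)⁻¹ * y⁻¹ :=
          congrArg Subtype.val h
        have h2 : (a : G) * y * (a : G)⁻¹ = b * y * (b : G)⁻¹ := mul_right_cancel h1
        calc (a : G)⁻¹ * b * y = (a : G)⁻¹ * (b * y * (b : G)⁻¹) * b := by group
          _ = (a : G)⁻¹ * (a * y * (a : G)⁻¹) * b := by rw [h2]
          _ = y * ((a : G)⁻¹ * b) := by group
      · intro h
        apply Subtype.ext
        show (a : G) * y * (a : G)⁻¹ * y⁻¹ = (b : G) * y * (b : G)⁻¹ * y⁻¹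
        congr 1
        calc (a : G) * y * (a : G)⁻¹ = a * (y * ((a : G)⁻¹ * b)) * (b : G)⁻¹ := by group
          _ = a * ((a : G)⁻¹ * b * y) * (b : G)⁻¹ := by rw [h]
          _ = b * y * (b : G)⁻¹ := by group
    refine Nat.card_le_card_of_injective (Quotient.lift f (fun a b h => ?_)) ?_
    · exact (hf a b).2 (QuotientGroup.leftRel_apply.1 h)
    · intro u v
      induction u using Quotient.inductionOn with
      | _ a =>
        induction v using Quotient.inductionOn with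
        | _ b =>
          intro h
          exact Quotient.sound (QuotientGroup.leftRel_apply.2 ((hf a b).1 h))
  have hmul := Subgroup.card_eq_card_quotient_mul_card_subgroup
    ((centralizer ({y} : Set G)).subgroupOf (Q ⊓ N))
  have hle : Nat.card (Q ⊓ N : Subgroup G) ≤ Nat.card (⁅Q, Q⁆ : Subgroup G) * 3 := by
    rw [hmul]
    exact Nat.mul_le_mul hq hC
  have hle' := Subgroup.card_le_of_le hDF
  have hne : a ≠ b := by
    intro hab
    have hEq : ⁅Q, Q⁆ = Q ⊓ N := Subgroup.eq_of_le_of_card_ge hDF (by rw [ha, hb, hab])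
    have h1 : zpowers y = Q := by
      apply nongen' Q _ hQ (zpowers_le.2 hy)
      intro x hx
      obtain ⟨w, hw, hw'⟩ := decomp (N := N) hNy hy hx
      refine ⟨w, hw, ?_⟩
      rw [hEq]
      exact hw'
    have h2 : ⁅Q, Q⁆ ≤ ⊥ := by
      rw [commutator_le, ← h1]
      intro g1 hg1 g2 hg2
      rw [mem_bot, commutatorElement_eq_one_iff_commute]
      obtain ⟨i, rfl⟩ := hg1
      obtain ⟨j, rfl⟩ := hg2
      exact ((Commute.refl y).zpow_right j).zpow_left i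
    have h3 : z ∈ (⊥ : Subgroup G) := h2 (by rw [hEq]; exact mem_inf.2 ⟨hzQ, hzN⟩)
    rw [mem_bot] at h3
    rw [h3, orderOf_one] at hz
    exact absurd hz (by norm_num)
  rw [ha, hb] at hle hle' ⊢
  have h1 : a ≤ b + 1 := by
    rw [← pow_succ] at hle
    exact (Nat.pow_le_pow_iff_right (by norm_num)).1 hle
  have h2 : b ≤ a := (Nat.pow_le_pow_iff_right (by norm_num)).1 hle'
  have h3 : a = b + 1 := by omega
  rw [h3, pow_succ, mul_comm]

/-- the climbing step -/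
lemma climb (hNy : N ⊔ zpowers y = ⊤)
    (h9 : ¬ 9 ∣ Nat.card (centralizer ({y} : Set G) ⊓ N : Subgroup G)) (hz : orderOf z = 3)
    (hzN : z ∈ N) {Q : Subgroup G} (hv : Valid y z Q) {t : G} (htQ : t ∉ Q)
    (htn : t ∈ normalizer (Q : Set G)) (ht : IsPGroup 3 (zpowers t)) :
    ∃ S : Subgroup G, Q < S ∧ Valid y z S := by
  obtain ⟨hQ, hy, hzQ, n, hn, hny, hnz⟩ := hv
  have hGN : _root_.commutator G ≤ N := abel hNy
  have hDN : ⁅Q, Q⁆ ≤ N := (commutator_mono le_top le_top).trans hGN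
  have hc := card_F hNy h9 hz hzN hQ hy hzQ
  have hto : Odd (orderOf t) := by
    obtain ⟨k, hk⟩ := IsPGroup.iff_card.1 ht
    rw [Nat.card_zpowers] at hk
    rw [hk]
    exact Odd.pow (by decide)
  have htK : t ∈ KK Q N := odd_mem hDN hc htn hto
  have hT : IsPGroup 3 (Q ⊔ zpowers t : Subgroup G) :=
    hQ.to_sup_of_normal_left' ht (zpowers_le.2 htn)
  have hTK : Q ⊔ zpowers t ≤ KK Q N := sup_le (Q_le_KK Q N) (zpowers_le.2 htK)
  obtain ⟨P, hP⟩ := IsPGroup.exists_le_sylow (P := (Q ⊔ zpowers t).subgroupOf (KK Q N))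
    (hT.comap_subtype)
  have hQS : Q ⊔ zpowers t ≤ (P : Subgroup (KK Q N)).map (KK Q N).subtype := by
    intro x hx
    exact ⟨⟨x, hTK hx⟩, hP (mem_subgroupOf.2 hx), rfl⟩
  refine ⟨(P : Subgroup (KK Q N)).map (KK Q N).subtype, ?_, P.2.map _,
    hQS (mem_sup_left hy), hQS (mem_sup_left hzQ), ?_⟩
  · refine lt_of_le_of_ne (le_sup_left.trans hQS) ?_
    intro he
    apply htQ
    rw [he]
    exact hQS (mem_sup_right (mem_zpowers t))
  have hnK : n ∈ normalizer ((KK Q N : Subgroup G) : Set G) :=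
    mem_normalizer_fintype fun g hg => conj_KK hn hg
  let φ : MulAut (KK Q N) := (KK Q N).normalizerMonoidHom ⟨n, hnK⟩
  have hφ : ∀ w : KK Q N, ((φ w : KK Q N) : G) = n * w * n⁻¹ := fun w => rfl
  obtain ⟨k, hk⟩ := MulAction.exists_smul_eq (KK Q N) (φ • P) P
  obtain ⟨s, hs, hsk⟩ := KK_cover hQ hGN P k
  have hcen := mem_centralizer_iff.1 hsk
  refine ⟨((s⁻¹ * k : KK Q N) : G) * n, ?_, ?_, ?_⟩
  · apply mem_normalizer_fintype
    rintro _ ⟨w, hw, rfl⟩
    have h1 : φ w ∈ (φ • P : Sylow 3 (KK Q N)) :=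
      (smul_mem_pointwise_smul w φ (P : Subgroup (KK Q N)) hw :)
    have h2 : k * φ w * k⁻¹ ∈ P := by
      have h3 : MulAut.conj k (φ w) ∈ (k • (φ • P) : Sylow 3 (KK Q N)) :=
        (smul_mem_pointwise_smul (φ w) (MulAut.conj k) ((φ • P : Sylow 3 (KK Q N)) :
          Subgroup (KK Q N)) h1 :)
      rw [hk] at h3
      exact h3
    have h3 : s⁻¹ * (k * φ w * k⁻¹) * s ∈ P := mul_mem (mul_mem (inv_mem hs) h2) hs
    refine ⟨_, h3, ?_⟩
    show ((s⁻¹ * (k * φ w * k⁻¹) * s : KK Q N) : G) =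
      ((s⁻¹ * k : KK Q N) : G) * n * (w : G) * (((s⁻¹ * k : KK Q N) : G) * n)⁻¹
    push_cast
    rw [hφ]
    group
  · have h1 := hcen y hy
    show ((s⁻¹ * k : KK Q N) : G) * n * y = y * (((s⁻¹ * k : KK Q N) : G) * n)
    rw [mul_assoc, hny.eq, ← mul_assoc, ← h1, mul_assoc]
  · have h1 := hcen z hzQ
    obtain ⟨c, hcdef⟩ : ∃ c : G, c = ((s⁻¹ * k : KK Q N) : G) := ⟨_, rfl⟩
    rw [← hcdef] at h1 ⊢
    calc (c * n)⁻¹ * z * (c * n) = n⁻¹ * c⁻¹ * (z * c) * n := by group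
      _ = n⁻¹ * c⁻¹ * (c * z) * n := by rw [h1]
      _ = n⁻¹ * z * n := by group
      _ = z⁻¹ := hnz

end main

lemma start {y z e : G} (hy : ∃ k, orderOf y = 3 ^ k) (hz : orderOf z = 3) (hzy : Commute z y)
    (hey : Commute e y) (hez : e⁻¹ * z * e = z⁻¹) : Valid y z (zpowers y ⊔ zpowers z) := by
  obtain ⟨k, hk⟩ := hy
  have h1 : IsPGroup 3 (zpowers y) := IsPGroup.of_card ((Nat.card_zpowers y).trans hk)
  have h2 : IsPGroup 3 (zpowers z) := IsPGroup.of_card (n := 1)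
    ((Nat.card_zpowers z).trans (by rw [hz, pow_one]))
  have h3 : zpowers y ≤ normalizer ((zpowers z : Subgroup G) : Set G) := by
    rw [zpowers_le]
    apply mem_normalizer_fintype
    rintro _ ⟨i, rfl⟩
    have h4 : Commute y (z ^ i) := (hzy.symm).zpow_right i
    show y * z ^ i * y⁻¹ ∈ zpowers z
    rw [h4.eq, mul_inv_cancel_right]
    exact zpow_mem (mem_zpowers z) i
  refine ⟨h1.to_sup_of_normal_right' h2 h3, mem_sup_left (mem_zpowers y),
    mem_sup_right (mem_zpowers z), e, ?_, hey, hez⟩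
  have h4 : zpowers y ⊔ zpowers z ≤
      (zpowers y ⊔ zpowers z).comap (MulAut.conj e).toMonoidHom := by
    apply sup_le
    · rw [zpowers_le, mem_comap]
      show e * y * e⁻¹ ∈ _
      rw [hey.eq, mul_inv_cancel_right]
      exact mem_sup_left (mem_zpowers y)
    · rw [zpowers_le, mem_comap]
      show e * z * e⁻¹ ∈ _
      have h5 : e * z * e⁻¹ = z⁻¹ := by
        calc e * z * e⁻¹ = e * (z⁻¹)⁻¹ * e⁻¹ := by rw [inv_inv]
          _ = e * (e⁻¹ * z * e)⁻¹ * e⁻¹ := by rw [hez]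
          _ = z⁻¹ := by group
      rw [h5]
      exact inv_mem (mem_sup_right (mem_zpowers z))
  apply mem_normalizer_fintype
  intro n hn
  exact h4 hn

/-- GA-FUS -/
theorem S_FUS : Pool.Agent.Y62.GA.S_FUS := by
  intro G _ _ N y hN hNy hy h9 z e hz hzN hzy hey hez
  obtain ⟨Q, hmax⟩ := (Set.toFinite {Q : Subgroup G | Valid y z Q}).exists_maximal
    ⟨_, start hy hz hzy hey hez⟩
  have hv : Valid y z Q := hmax.1
  obtain ⟨P, hP⟩ := IsPGroup.exists_le_sylow hv.1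
  by_cases hPQ : Q = (P : Subgroup G)
  · obtain ⟨h1, h2, h3, n, h4, h5, h6⟩ := hv
    refine ⟨P, ?_, ?_, n, ?_, h5, h6⟩
    · rw [hPQ] at h2
      exact h2
    · rw [hPQ] at h3
      exact h3
    · rw [hPQ] at h4
      exact h4
  · exfalso
    have hlt : Q < (P : Subgroup G) := lt_of_le_of_ne hP hPQ
    have hnil : Group.IsNilpotent P := P.2.isNilpotent
    have hH : Q.subgroupOf (P : Subgroup G) < ⊤ := by
      rw [lt_top_iff_ne_top]
      intro h
      exact hPQ (le_antisymm hP (subgroupOf_eq_top.1 h))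
    have h1 := Group.normalizerCondition_of_isNilpotent (G := P) _ hH
    obtain ⟨t, ht, ht'⟩ := SetLike.exists_of_lt h1
    have htQ : (t : G) ∉ Q := fun h => ht' (mem_subgroupOf.2 h)
    have htn : (t : G) ∈ normalizer (Q : Set G) := by
      apply mem_normalizer_fintype
      intro q hq
      have h2 := (mem_normalizer_iff.1 ht ⟨q, hP hq⟩).1 (mem_subgroupOf.2 hq)
      exact mem_subgroupOf.1 h2
    have htp : IsPGroup 3 (zpowers (t : G)) := P.2.to_le (zpowers_le.2 t.2)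
    obtain ⟨S, hQS, hS⟩ := climb hNy h9 hz hzN hv htQ htn htp
    exact absurd (hmax.2 hS hQS.le) (not_le_of_gt hQS)

end Pool.Agent.Y655.GA
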